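import Pool.Agent.Helper82.TET.Sys

/-!
# The dihedral relabelling of a chain simplex: the largest side of the cyclic order comes first
-/

set_option autoImplicit false

namespace Pool.Agent.Helper82.TET

open Matrix Pool.Agent.Helper22.Sym Pool.Agent.Helper24.UB

namespace Sys

variable {K : Set (Fin 3 → ℝ)}

/-- the conorm of two superbase vectors -/
def pp (S : Sys K) (l m : Fin 4) : ℝ := -∑ j, S.G l j * S.G m j

theorem pp_comm (S : Sys K) (l m : Fin 4) : S.pp l m = S.pp m l := by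
  unfold pp
  exact congrArg Neg.neg (Finset.sum_congr rfl fun j _ => mul_comm _ _)

theorem p_eq_pp (S : Sys K) (s : Fin 6) : S.p s = S.pp (pa s) (pb s) := rfl

theorem pp_nonneg (S : Sys K) {l m : Fin 4} (h : l ≠ m) : 0 ≤ S.pp l m := by
  have := S.obtuse l m h
  unfold pp
  linarith

/-- the rotation by `a` -/
def rot (S : Sys K) (a : Fin 4) : Sys K where
  f k := S.f (k + a)
  u k := S.u (k + a)
  hsb := by
    refine ⟨?_, fun l m i => ?_⟩
    · rw [← S.hsb.1]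
      exact Equiv.sum_comp (Equiv.addRight a) S.f
    · rw [S.hsb.2 (l + a) (m + a) (i + a)]
      simp only [add_left_inj]
  P k := S.P (k + a)
  hP k := by
    show S.P (k + 1 + a) = _
    rw [add_right_comm, S.hP]
  g k := S.g (k + a)
  hg := by
    rw [← S.hg]
    exact Equiv.sum_comp (Equiv.addRight a) S.g
  hspan m := by
    obtain ⟨c, hc⟩ := S.hspan m
    refine ⟨fun k => c (k + a), ?_⟩
    rw [← hc]
    exact Equiv.sum_comp (Equiv.addRight a) (fun k => c k • S.g k)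
  hone := by
    rw [← S.hone]
    exact Equiv.sum_comp (Equiv.addRight a) (fun k => S.g k ⬝ᵥ toR (S.P k))
  hsub k x hx := S.hsub (k + a) x hx
  hob l m h := by
    have h1 := S.hob (l + a) (m + a) (fun h0 => h (add_right_cancel h0))
    rw [← Equiv.sum_comp (Equiv.addRight a)] at h1
    exact h1

/-- the reflection -/
def refl (S : Sys K) (a : Fin 4) : Sys K where
  f k := -S.f (a - 1 - k)
  u k := -S.u (a - 1 - k)
  hsb := by
    refine ⟨?_, fun l m i => ?_⟩
    · rw [Finset.sum_neg_distrib, neg_eq_zero, ← S.hsb.1]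
      exact Equiv.sum_comp (Equiv.subLeft (a - 1)) S.f
    · have h1 := S.hsb.2 (a - 1 - l) (a - 1 - m) (a - 1 - i)
      have h2 : (-S.u (a - 1 - l) - -S.u (a - 1 - m)) ⬝ᵥ -S.f (a - 1 - i)
          = (S.u (a - 1 - l) - S.u (a - 1 - m)) ⬝ᵥ S.f (a - 1 - i) := by
        rw [dotProduct_neg, ← neg_dotProduct]
        congr 1
        abel
      show (-S.u (a - 1 - l) - -S.u (a - 1 - m)) ⬝ᵥ -S.f (a - 1 - i) = _
      rw [h2, h1]
      simp only [sub_right_inj]
  P k := S.P (a - k)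
  hP k := by
    have h1 := S.hP (a - 1 - k)
    have h2 : a - 1 - k + 1 = a - k := by abel
    have h3 : a - (k + 1) = a - 1 - k := by abel
    rw [h2] at h1
    show S.P (a - (k + 1)) = S.P (a - k) + -S.f (a - 1 - k)
    rw [h3, h1]
    abel
  g k := S.g (a - k)
  hg := by
    rw [← S.hg]
    exact Equiv.sum_comp (Equiv.subLeft a) S.g
  hspan m := by
    obtain ⟨c, hc⟩ := S.hspan m
    refine ⟨fun k => c (a - k), ?_⟩
    rw [← hc]
    exact Equiv.sum_comp (Equiv.subLeft a) (fun k => c k • S.g k)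
  hone := by
    rw [← S.hone]
    exact Equiv.sum_comp (Equiv.subLeft a) (fun k => S.g k ⬝ᵥ toR (S.P k))
  hsub k x hx := S.hsub (a - k) x hx
  hob l m h := by
    have h1 := S.hob (a - 1 - l) (a - 1 - m) (fun h0 => h (sub_right_injective h0))
    rw [← Equiv.sum_comp (Equiv.subLeft a)] at h1
    refine le_of_eq_of_le (Finset.sum_congr rfl fun j _ => ?_) h1
    have h2 : ∀ x : Fin 3 → ℤ, toR (-x) = -toR x := fun x => by funext i; simp [toR]
    rw [h2, h2, dotProduct_neg, dotProduct_neg, neg_mul_neg]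
    rfl

theorem pp_rot (S : Sys K) (a l m : Fin 4) : (S.rot a).pp l m = S.pp (l + a) (m + a) := by
  unfold pp
  congr 1
  simp only [G_eq]
  rw [← Equiv.sum_comp (Equiv.addRight a)
    (fun j => (S.g j ⬝ᵥ toR (S.f (l + a))) * (S.g j ⬝ᵥ toR (S.f (m + a))))]
  rfl

theorem pp_refl (S : Sys K) (a l m : Fin 4) :
    (S.refl a).pp l m = S.pp (a - 1 - l) (a - 1 - m) := by
  unfold pp
  congr 1
  simp only [G_eq]
  rw [← Equiv.sum_comp (Equiv.subLeft a)
    (fun j => (S.g j ⬝ᵥ toR (S.f (a - 1 - l))) * (S.g j ⬝ᵥ toR (S.f (a - 1 - m))))]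
  refine Finset.sum_congr rfl fun j _ => ?_
  have h2 : ∀ x : Fin 3 → ℤ, toR (-x) = -toR x := fun x => by funext i; simp [toR]
  show (S.g (a - j) ⬝ᵥ toR (-S.f (a - 1 - l))) * (S.g (a - j) ⬝ᵥ toR (-S.f (a - 1 - m))) = _
  rw [h2, h2, dotProduct_neg, dotProduct_neg, neg_mul_neg]
  rfl

/-- **Cover**: after a dihedral relabelling the side `01` of the cyclic order is the largest one and
the other three sides are in one of three orders. -/
theorem cover (S : Sys K) : ∃ T : Sys K,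
    T.pp 1 2 ≤ T.pp 0 1 ∧ T.pp 2 3 ≤ T.pp 0 1 ∧ T.pp 0 3 ≤ T.pp 0 1 ∧
    ((T.pp 0 3 ≤ T.pp 1 2 ∧ T.pp 1 2 ≤ T.pp 2 3) ∨ (T.pp 0 3 ≤ T.pp 2 3 ∧ T.pp 2 3 ≤ T.pp 1 2) ∨
      (T.pp 2 3 ≤ T.pp 0 3 ∧ T.pp 0 3 ≤ T.pp 1 2)) := by
  obtain ⟨a, -, ha⟩ := Finset.exists_max_image Finset.univ (fun k : Fin 4 => S.pp k (k + 1))
    ⟨0, Finset.mem_univ 0⟩
  have hR : ∀ k : Fin 4, (S.rot a).pp k (k + 1) ≤ (S.rot a).pp 0 1 := by
    intro k
    rw [pp_rot, pp_rot]
    have h1 := ha (k + a) (Finset.mem_univ _)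
    have h2 : (0 : Fin 4) + a = a := zero_add a
    have h3 : (1 : Fin 4) + a = a + 1 := add_comm _ _
    have h4 : k + 1 + a = k + a + 1 := add_right_comm _ _ _
    rw [h2, h3, h4]
    exact h1
  have h12 := hR 1
  have h23 := hR 2
  have h30 := hR 3
  have e1 : (1 : Fin 4) + 1 = 2 := rfl
  have e2 : (2 : Fin 4) + 1 = 3 := rfl
  have e3 : (3 : Fin 4) + 1 = 0 := rfl
  rw [e1] at h12
  rw [e2] at h23
  rw [e3, pp_comm] at h30
  by_cases h : (S.rot a).pp 0 3 ≤ (S.rot a).pp 1 2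
  · refine ⟨S.rot a, h12, h23, h30, ?_⟩
    rcases le_total ((S.rot a).pp 1 2) ((S.rot a).pp 2 3) with h5 | h5
    · exact Or.inl ⟨h, h5⟩
    · rcases le_total ((S.rot a).pp 0 3) ((S.rot a).pp 2 3) with h6 | h6
      · exact Or.inr (Or.inl ⟨h6, h5⟩)
      · exact Or.inr (Or.inr ⟨h6, h⟩)
  · have h' := (not_le.1 h).le
    have q01 : ((S.rot a).refl 2).pp 0 1 = (S.rot a).pp 0 1 := by
      rw [pp_refl, pp_comm]
      rfl
    have q12 : ((S.rot a).refl 2).pp 1 2 = (S.rot a).pp 0 3 := by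
      rw [pp_refl]
      rfl
    have q23 : ((S.rot a).refl 2).pp 2 3 = (S.rot a).pp 2 3 := by
      rw [pp_refl, pp_comm]
      rfl
    have q03 : ((S.rot a).refl 2).pp 0 3 = (S.rot a).pp 1 2 := by
      rw [pp_refl]
      rfl
    refine ⟨(S.rot a).refl 2, ?_⟩
    rw [q01, q12, q23, q03]
    refine ⟨h30, h23, h12, ?_⟩
    rcases le_total ((S.rot a).pp 0 3) ((S.rot a).pp 2 3) with h5 | h5
    · exact Or.inl ⟨h', h5⟩
    · rcases le_total ((S.rot a).pp 1 2) ((S.rot a).pp 2 3) with h6 | h6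
      · exact Or.inr (Or.inl ⟨h6, h5⟩)
      · exact Or.inr (Or.inr ⟨h6, h'⟩)

end Sys

end Pool.Agent.Helper82.TET
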